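import Mathlib

/-!
# Project RA: definitions

The octahedralisation of a flag complex and the vanishing of reduced mod 2 homology.
-/

set_option autoImplicit false

open Finset

namespace Pool.Agent.H65.RA

variable {V : Type}

/-- The graph of the octahedralisation of the flag complex of `G`: every vertex `v` is replaced by
the two vertices `(v, false)`, `(v, true)`, which are not adjacent. -/
def oct (G : SimpleGraph V) : SimpleGraph (V × Bool) where
  Adj a b := G.Adj a.1 b.1
  symm := ⟨fun _ _ h => h.symm⟩
  loopless := ⟨fun a h => G.loopless.irrefl a.1 h⟩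

/-- The reduced homology modulo two of the flag complex of `G` vanishes on the simplices with `j`
vertices (in degree `j - 1`): every cycle is a boundary. -/
def HZ [DecidableEq V] [Fintype V] (G : SimpleGraph V) (j : ℕ) : Prop :=
  ∀ z : Finset V → ZMod 2, (∀ s, z s ≠ 0 → G.IsClique (s : Set V) ∧ s.card = j) →
    (∀ s, ∑ v ∈ sᶜ, z (insert v s) = 0) →
    ∃ y : Finset V → ZMod 2, (∀ s, y s ≠ 0 → G.IsClique (s : Set V) ∧ s.card = j + 1) ∧
      ∀ s, ∑ v ∈ sᶜ, y (insert v s) = z s

end Pool.Agent.H65.RA
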