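import Mathlib

/-!
# Project RA: the polynomials `F_S`

For a cochain `x` on the `(k + 1)`-subsets of a set `S` with a numbering `e`, the value of the
polynomial `F_S` at the indicator function of `T`.
-/

set_option autoImplicit false

open Finset

namespace Pool.Agent.H65.RA

variable {V : Type} [DecidableEq V]

/-- the indicator function of `T` -/
def ind (T : Finset V) (u : V) : ZMod 2 := if u ∈ T then 1 else 0

/-- the parity of the number of elements of `D` before `u` -/
def par (e : V → ℕ) (D : Finset V) (u : V) : ZMod 2 :=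
  ((D.filter fun d => e d < e u).card : ZMod 2)

/-- the value of the polynomial `F_S` at the indicator function of `T` -/
def FS (e : V → ℕ) (x : Finset V → ZMod 2) (k : ℕ) (S T : Finset V) : ZMod 2 :=
  ∑ D ∈ S.powersetCard (k + 1), x D * ∏ u ∈ S \ D, (ind T u + par e D u)

theorem z2_add_self (a : ZMod 2) : a + a = 0 := ZModModule.add_self a

theorem ind_congr {T T' : Finset V} {u : V} (h : u ∈ T ↔ u ∈ T') : ind T u = ind T' u := by
  unfold ind
  exact if_congr h rfl rfl

theorem FS_congr (e : V → ℕ) (x : Finset V → ZMod 2) (k : ℕ) {S T T' : Finset V}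
    (h : ∀ u ∈ S, (u ∈ T ↔ u ∈ T')) : FS e x k S T = FS e x k S T' := by
  unfold FS
  refine sum_congr rfl fun D _ => ?_
  congr 1
  refine prod_congr rfl fun u hu => ?_
  rw [ind_congr (h u (mem_sdiff.1 hu).1)]

/-- `F_S = 0` if `S` has at most `k` elements -/
theorem FS_small (e : V → ℕ) (x : Finset V → ZMod 2) (k : ℕ) {S : Finset V} (T : Finset V)
    (h : S.card ≤ k) : FS e x k S T = 0 := by
  unfold FS
  rw [powersetCard_eq_empty.2 (by omega), sum_empty]

/-- `F_S = x(S)` if `S` has `k + 1` elements -/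
theorem FS_top (e : V → ℕ) (x : Finset V → ZMod 2) (k : ℕ) {S : Finset V} (T : Finset V)
    (h : S.card = k + 1) : FS e x k S T = x S := by
  unfold FS
  rw [← h, powersetCard_self, sum_singleton, Finset.sdiff_self, prod_empty, mul_one]

/-- the difference of `F_S` in the direction `a` is `F_{S - a}` -/
theorem FS_toggle (e : V → ℕ) (x : Finset V → ZMod 2) (k : ℕ) {S T : Finset V} {a : V}
    (ha : a ∈ S) (hT : a ∉ T) :
    FS e x k S (insert a T) + FS e x k S T = FS e x k (S.erase a) T := by
  unfold FS
  rw [← sum_add_distrib]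
  have hsub : (S.erase a).powersetCard (k + 1) ⊆ S.powersetCard (k + 1) :=
    powersetCard_mono (erase_subset a S)
  symm
  rw [← sum_subset hsub]
  · refine sum_congr rfl fun D hD => ?_
    rw [mem_powersetCard] at hD
    have haD : a ∉ D := fun h => notMem_erase a S (hD.1 h)
    have h1 : S \ D = insert a (S.erase a \ D) := by
      ext u
      simp only [mem_sdiff, mem_insert, mem_erase]
      by_cases hu : u = a
      · subst hu
        simp [ha, haD]
      · simp [hu]
    have h2 : a ∉ S.erase a \ D := fun h => notMem_erase a S (mem_sdiff.1 h).1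
    rw [h1, prod_insert h2, prod_insert h2]
    have h3 : ∏ u ∈ S.erase a \ D, (ind (insert a T) u + par e D u) =
        ∏ u ∈ S.erase a \ D, (ind T u + par e D u) := by
      refine prod_congr rfl fun u hu => ?_
      have hua : u ≠ a := fun h => h2 (h ▸ hu)
      rw [ind_congr (T := insert a T) (T' := T) (by simp [hua])]
    rw [h3]
    have h4 : ind (insert a T) a = 1 := by
      unfold ind
      rw [if_pos (mem_insert_self a T)]
    have h5 : ind T a = 0 := by
      unfold ind
      rw [if_neg hT]
    rw [h4, h5, zero_add]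
    have h6 := z2_add_self (x D * (par e D a * ∏ u ∈ S.erase a \ D, (ind T u + par e D u)))
    linear_combination -h6
  · intro D hD hD'
    rw [mem_powersetCard] at hD hD'
    have haD : a ∈ D := by
      by_contra h
      exact hD' ⟨fun u hu => mem_erase.2 ⟨fun h' => h (h' ▸ hu), hD.1 hu⟩, hD.2⟩
    have h3 : ∏ u ∈ S \ D, (ind (insert a T) u + par e D u) =
        ∏ u ∈ S \ D, (ind T u + par e D u) := by
      refine prod_congr rfl fun u hu => ?_
      have hua : u ≠ a := fun h => (mem_sdiff.1 hu).2 (h ▸ haD)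
      rw [ind_congr (T := insert a T) (T' := T) (by simp [hua])]
    rw [h3]
    exact z2_add_self _

/-- the telescoping identity -/
theorem tele (e : V → ℕ) (he : Function.Injective e) (c : V → ZMod 2) (C : Finset V) :
    ∑ d ∈ C, ∏ u ∈ C.erase d, (c u + if e d < e u then 1 else 0) =
      ∏ u ∈ C, c u + ∏ u ∈ C, (c u + 1) := by
  induction C using Finset.induction_on_max_value e with
  | empty =>
    simp only [sum_empty, prod_empty]
    decide
  | insert a C ha hmax ih =>
    have h1 : (insert a C).erase a = C := erase_insert ha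
    rw [sum_insert ha, h1, prod_insert ha, prod_insert ha]
    have h2 : ∏ u ∈ C, (c u + if e a < e u then 1 else 0) = ∏ u ∈ C, c u := by
      refine prod_congr rfl fun u hu => ?_
      rw [if_neg (not_lt.2 (hmax u hu)), add_zero]
    have h3 : ∀ d ∈ C, ∏ u ∈ (insert a C).erase d, (c u + if e d < e u then 1 else 0) =
        (c a + 1) * ∏ u ∈ C.erase d, (c u + if e d < e u then 1 else 0) := by
      intro d hd
      have hda : a ≠ d := fun h => ha (h ▸ hd)
      have h4 : e d < e a := lt_of_le_of_ne (hmax d hd) fun h => hda (he h).symm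
      rw [erase_insert_of_ne hda, prod_insert (fun h => ha (mem_of_mem_erase h)), if_pos h4]
    rw [sum_congr rfl h3, ← mul_sum, ih, h2]
    have h6 := z2_add_self (∏ u ∈ C, c u)
    linear_combination h6

theorem par_insert (e : V → ℕ) {D : Finset V} {d u : V} (hd : d ∉ D) :
    par e (insert d D) u = par e D u + if e d < e u then 1 else 0 := by
  unfold par
  rw [filter_insert]
  split_ifs with h
  · rw [card_insert_of_notMem (fun h' => hd (mem_filter.1 h').1)]
    push_cast
    rfl
  · rw [add_zero]

/-- `F_S` for a coboundary `x` -/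
theorem FS_cob (e : V → ℕ) (he : Function.Injective e) (x y : Finset V → ZMod 2) (k : ℕ)
    (S T : Finset V) (hxy : ∀ D ⊆ S, D.card = k + 1 → x D = ∑ d ∈ D, y (D.erase d)) :
    FS e x k S T = ∑ R ∈ S.powersetCard k, y R * (∏ u ∈ S \ R, (ind T u + par e R u) +
      ∏ u ∈ S \ R, (ind T u + par e R u + 1)) := by
  have h1 : FS e x k S T = ∑ D ∈ S.powersetCard (k + 1), ∑ d ∈ D,
      y (D.erase d) * ∏ u ∈ S \ D, (ind T u + par e D u) := by
    unfold FS
    refine sum_congr rfl fun D hD => ?_
    rw [mem_powersetCard] at hD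
    rw [hxy D hD.1 hD.2, sum_mul]
  have h2 : ∀ R ∈ S.powersetCard k, y R * (∏ u ∈ S \ R, (ind T u + par e R u) +
      ∏ u ∈ S \ R, (ind T u + par e R u + 1)) = ∑ d ∈ S \ R, y R *
        ∏ u ∈ S \ insert d R, (ind T u + par e (insert d R) u) := by
    intro R _
    rw [← tele e he (fun u => ind T u + par e R u) (S \ R), mul_sum]
    refine sum_congr rfl fun d hd => ?_
    congr 1
    have h3 : (S \ R).erase d = S \ insert d R := by
      ext u
      simp only [mem_erase, mem_sdiff, mem_insert, not_or]
      tauto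
    rw [h3]
    refine prod_congr rfl fun u _ => ?_
    rw [par_insert e (mem_sdiff.1 hd).2, add_assoc]
  rw [h1, sum_congr rfl h2, sum_sigma', sum_sigma']
  refine sum_bij' (fun p _ => ⟨p.1.erase p.2, p.2⟩) (fun p _ => ⟨insert p.2 p.1, p.2⟩) ?_ ?_ ?_ ?_ ?_
  · rintro ⟨D, d⟩ h
    simp only [mem_sigma, mem_powersetCard, mem_sdiff] at h ⊢
    obtain ⟨⟨h4, h5⟩, h6⟩ := h
    refine ⟨⟨(erase_subset d D).trans h4, ?_⟩, h4 h6, notMem_erase d D⟩
    rw [card_erase_of_mem h6, h5]
    rfl
  · rintro ⟨R, d⟩ h
    simp only [mem_sigma, mem_powersetCard, mem_sdiff] at h ⊢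
    obtain ⟨⟨h4, h5⟩, h6, h7⟩ := h
    exact ⟨⟨insert_subset h6 h4, by rw [card_insert_of_notMem h7, h5]⟩, mem_insert_self d R⟩
  · rintro ⟨D, d⟩ h
    simp only [mem_sigma] at h
    simp only [insert_erase h.2]
  · rintro ⟨R, d⟩ h
    simp only [mem_sigma, mem_sdiff] at h
    simp only [erase_insert h.2.2]
  · rintro ⟨D, d⟩ h
    simp only [mem_sigma] at h
    simp only [insert_erase h.2]

/-- a cocycle on a simplex is a coboundary -/
theorem cone (x : Finset V → ZMod 2) (k : ℕ) (S : Finset V) (s₀ : V) (hs : s₀ ∈ S)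
    (hx : ∀ D ⊆ S, D.card = k + 2 → ∑ v ∈ D, x (D.erase v) = 0) (D : Finset V) (hD : D ⊆ S)
    (hc : D.card = k + 1) :
    x D = ∑ d ∈ D, (if s₀ ∈ D.erase d then 0 else x (insert s₀ (D.erase d))) := by
  by_cases h : s₀ ∈ D
  · rw [sum_eq_single s₀]
    · rw [if_neg (notMem_erase s₀ D), insert_erase h]
    · intro d _ hd
      rw [if_pos (mem_erase.2 ⟨hd.symm, h⟩)]
    · intro h'
      exact absurd h h'
  · have h1 := hx (insert s₀ D) (insert_subset hs hD) (by rw [card_insert_of_notMem h, hc])
    rw [sum_insert h, erase_insert h] at h1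
    have h2 : ∀ d ∈ D, x ((insert s₀ D).erase d) =
        if s₀ ∈ D.erase d then 0 else x (insert s₀ (D.erase d)) := by
      intro d hd
      have hd' : s₀ ≠ d := fun h' => h (h' ▸ hd)
      rw [if_neg (fun h' => h (mem_of_mem_erase h')), erase_insert_of_ne hd']
    rw [sum_congr rfl h2] at h1
    exact (CharTwo.add_eq_zero).1 h1

/-- `F_S` is invariant under the complement if `x` is a cocycle on the simplex `S` -/
theorem FS_compl (e : V → ℕ) (he : Function.Injective e) (x : Finset V → ZMod 2) (k : ℕ)
    (S T : Finset V) (hx : ∀ D ⊆ S, D.card = k + 2 → ∑ v ∈ D, x (D.erase v) = 0) :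
    FS e x k S (S \ T) = FS e x k S T := by
  rcases S.eq_empty_or_nonempty with rfl | ⟨s₀, hs⟩
  · exact FS_congr e x k fun u hu => absurd hu (notMem_empty u)
  · have h1 := cone x k S s₀ hs hx
    have h2 := fun T' => FS_cob e he x (fun R => if s₀ ∈ R then 0 else x (insert s₀ R)) k S T' h1
    rw [h2 (S \ T), h2 T]
    refine sum_congr rfl fun R _ => ?_
    congr 1
    rw [add_comm]
    have h3 : ∀ u ∈ S \ R, ind (S \ T) u = ind T u + 1 := by
      intro u hu
      unfold ind
      by_cases hT : u ∈ T
      · rw [if_neg (fun h => (mem_sdiff.1 h).2 hT), if_pos hT]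
        exact (z2_add_self 1).symm
      · rw [if_pos (mem_sdiff.2 ⟨(mem_sdiff.1 hu).1, hT⟩), if_neg hT, zero_add]
    congr 1
    · refine prod_congr rfl fun u hu => ?_
      rw [h3 u hu]
      have h4 := z2_add_self (1 : ZMod 2)
      linear_combination h4
    · refine prod_congr rfl fun u hu => ?_
      rw [h3 u hu]
      ring

end Pool.Agent.H65.RA
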