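import Pool.Agent.H65.RA.Inter

/-!
# Project RA: the pairing of cocycles and cycles
-/

set_option autoImplicit false
set_option linter.unusedSectionVars false

open Finset

namespace Pool.Agent.H65.RA

open Pool.Agent.H85.VK

variable {V : Type} [DecidableEq V] {G : SimpleGraph V} {e : V → ℕ} {x : Finset V → ZMod 2}
  {k : ℕ}

theorem bet_self {σ : Finset V} (hσ : G.IsClique (σ : Set V)) : bet G σ σ = {σ} := by
  ext S
  rw [mem_bet, union_self, inter_self, mem_singleton]
  constructor
  · rintro ⟨h1, h2, _⟩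
    exact Subset.antisymm h1 h2
  · rintro rfl
    exact ⟨Subset.refl _, Subset.refl _, hσ⟩

/-- the value of `Ps g` on the diagonal -/
theorem Ps_self {σ : Finset V} (hσ : G.IsClique (σ : Set V)) (hc : σ.card = k + 1)
    (g : Finset (V × Bool) → Finset (V × Bool) → ZMod 2) :
    Ps G e x k g σ σ = x σ * ∑ A ∈ σ.powerset, g (sgn σ (sA σ A)) (sgn σ (sB A)) := by
  unfold Ps
  rw [bet_self hσ, sum_singleton, mul_sum]
  exact sum_congr rfl fun A _ => by rw [FS_top e x k _ hc]

/-- the value of `Ps g` next to the diagonal -/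
theorem Ps_face {σ : Finset V} (hσ : G.IsClique (σ : Set V)) (hc : σ.card = k + 1) (v : V)
    (g : Finset (V × Bool) → Finset (V × Bool) → ZMod 2) :
    Ps G e x k g (σ.erase v) σ =
      x σ * ∑ A ∈ σ.powerset, g (sgn (σ.erase v) (sA σ A)) (sgn σ (sB A)) := by
  unfold Ps
  rw [sum_eq_single σ]
  · rw [mul_sum]
    exact sum_congr rfl fun A _ => by rw [FS_top e x k _ hc]
  · intro S hS hne
    rw [mem_bet] at hS
    have h1 : S ⊆ σ := hS.1.trans (union_subset (erase_subset v σ) (Subset.refl σ))
    have h2 := card_lt_card (_root_.ssubset_iff_subset_ne.2 ⟨h1, hne⟩)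
    refine sum_eq_zero fun A _ => ?_
    rw [FS_small e x k _ (by omega), zero_mul]
  · intro h
    exfalso
    refine h (mem_bet.2 ⟨subset_union_right, ?_, hσ⟩)
    exact inter_subset_right

/-- the symmetric function of the finger moves -/
def gt (g : Finset (V × Bool) → Finset (V × Bool) → ZMod 2) (a b : Finset (V × Bool)) : ZMod 2 :=
  (if b.card < a.card then g a b else 0) + if a.card < b.card then g b a else 0

theorem gt_symm (g : Finset (V × Bool) → Finset (V × Bool) → ZMod 2)
    (a b : Finset (V × Bool)) : gt g a b = gt g b a := by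
  unfold gt
  rw [add_comm]

theorem gt_dd (g : Finset (V × Bool) → Finset (V × Bool) → ZMod 2)
    (hg : ∀ a b : Finset (V × Bool), (oct G).IsClique (a : Set (V × Bool)) → a.card = k + 1 →
      (oct G).IsClique (b : Set (V × Bool)) → b.card = k + 1 → Disjoint a b →
      iv e a b = ∑ w ∈ b, g a (b.erase w) + ∑ w ∈ a, g b (a.erase w))
    {a b : Finset (V × Bool)} (ha : (oct G).IsClique (a : Set (V × Bool))) (hac : a.card = k + 1)
    (hb : (oct G).IsClique (b : Set (V × Bool))) (hbc : b.card = k + 1) (hd : Disjoint a b) :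
    d1 (gt g) a b + d2 (gt g) a b = iv e a b := by
  rw [hg a b ha hac hb hbc hd, add_comm]
  congr 1
  · unfold d2
    refine sum_congr rfl fun w hw => ?_
    have h1 := card_erase_of_mem hw
    unfold gt
    rw [if_pos (by omega), if_neg (by omega), add_zero]
  · unfold d1
    refine sum_congr rfl fun w hw => ?_
    have h1 := card_erase_of_mem hw
    unfold gt
    rw [if_neg (by omega), if_pos (by omega), zero_add]

/-- the two signed simplices are disjoint -/
theorem sgn_disjoint {σ τ S A : Finset V} (hS : σ ∩ τ ⊆ S) :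
    Disjoint (sgn σ (sA S A)) (sgn τ (sB A)) := by
  rw [disjoint_left]
  intro w h1 h2
  rw [mem_sgn] at h1 h2
  have h3 := hS (mem_inter.2 ⟨h1.1, h2.1⟩)
  have h4 := h1.2.symm.trans h2.2
  unfold sA sB at h4
  rw [decide_eq_decide] at h4
  tauto

/-- `Q σ τ` is the sum of the `G (σ - v) τ` -/
noncomputable def QQ (G : SimpleGraph V) (e : V → ℕ) (x : Finset V → ZMod 2) (k : ℕ)
    (g : Finset (V × Bool) → Finset (V × Bool) → ZMod 2) (σ τ : Finset V) : ZMod 2 :=
  ∑ v ∈ σ, Ps G e x k (gt g) (σ.erase v) τ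

variable (g : Finset (V × Bool) → Finset (V × Bool) → ZMod 2)

theorem QQ_off (he : Function.Injective e)
    (hx : ∀ D : Finset V, G.IsClique (D : Set V) → D.card = k + 2 → ∑ v ∈ D, x (D.erase v) = 0)
    (hg : ∀ a b : Finset (V × Bool), (oct G).IsClique (a : Set (V × Bool)) → a.card = k + 1 →
      (oct G).IsClique (b : Set (V × Bool)) → b.card = k + 1 → Disjoint a b →
      iv e a b = ∑ w ∈ b, g a (b.erase w) + ∑ w ∈ a, g b (a.erase w))
    {σ τ : Finset V} (hσ : G.IsClique (σ : Set V)) (hσc : σ.card = k + 1)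
    (hτ : G.IsClique (τ : Set V)) (hτc : τ.card = k + 1) (hne : σ ≠ τ) :
    QQ G e x k g σ τ = QQ G e x k g τ σ := by
  have h1 := Ps_dd e x k he hx hσ hτ (gt g)
  have h2 : Ps G e x k (fun a b => d1 (gt g) a b + d2 (gt g) a b) σ τ =
      Ps G e x k (iv e) σ τ := by
    unfold Ps
    refine sum_congr rfl fun S hS => sum_congr rfl fun A _ => ?_
    rw [mem_bet] at hS
    beta_reduce
    rw [gt_dd g hg (clique_sgn _ hσ) (by rw [card_sgn, hσc]) (clique_sgn _ hτ)
      (by rw [card_sgn, hτc]) (sgn_disjoint hS.2.1)]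
  rw [h2, Ps_inter he x k hσc hτc hne] at h1
  have h3 : ∑ v ∈ τ, Ps G e x k (gt g) σ (τ.erase v) = QQ G e x k g τ σ := by
    unfold QQ
    refine sum_congr rfl fun v _ => ?_
    rw [Ps_swap e x k he hx]
    congr 1
    funext a b
    exact gt_symm g b a
  rw [h3] at h1
  exact (CharTwo.add_eq_zero).1 h1.symm

theorem QQ_diag (he : Function.Injective e)
    (hg : ∀ a b : Finset (V × Bool), (oct G).IsClique (a : Set (V × Bool)) → a.card = k + 1 →
      (oct G).IsClique (b : Set (V × Bool)) → b.card = k + 1 → Disjoint a b →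
      iv e a b = ∑ w ∈ b, g a (b.erase w) + ∑ w ∈ a, g b (a.erase w))
    {σ : Finset V} (hσ : G.IsClique (σ : Set V)) (hσc : σ.card = k + 1) :
    QQ G e x k g σ σ = x σ := by
  classical
  have hne : σ.Nonempty := card_pos.1 (by omega)
  obtain ⟨v₀, hv₀⟩ := hne
  have h1 : QQ G e x k g σ σ = x σ * ∑ A ∈ σ.powerset, d1 (gt g) (sgn σ (sA σ A))
      (sgn σ (sB A)) := by
    unfold QQ
    rw [sum_congr rfl fun v _ => Ps_face hσ hσc v (gt g), ← mul_sum, sum_comm]
    congr 1
    refine sum_congr rfl fun A _ => ?_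
    unfold d1
    rw [sum_sgn]
    refine sum_congr rfl fun v _ => ?_
    rw [erase_sgn]
  have h2 : ∑ A ∈ σ.powerset, d1 (gt g) (sgn σ (sA σ A)) (sgn σ (sB A)) = 1 := by
    obtain ⟨σ', hv', rfl⟩ : ∃ σ', v₀ ∉ σ' ∧ σ = insert v₀ σ' :=
      ⟨σ.erase v₀, notMem_erase v₀ σ, (insert_erase hv₀).symm⟩
    rw [sum_powerset_insert hv']
    -- the sets without `v₀` are the complements of the sets with `v₀`
    have h3 : ∑ A ∈ σ'.powerset, d1 (gt g) (sgn (insert v₀ σ') (sA (insert v₀ σ') A))
        (sgn (insert v₀ σ') (sB A)) = ∑ A ∈ σ'.powerset, d2 (gt g)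
          (sgn (insert v₀ σ') (sA (insert v₀ σ') (insert v₀ A)))
          (sgn (insert v₀ σ') (sB (insert v₀ A))) := by
      refine sum_nbij' (fun A => σ' \ A) (fun A => σ' \ A) ?_ ?_ ?_ ?_ ?_
      · intro A _
        exact mem_powerset.2 sdiff_subset
      · intro A _
        exact mem_powerset.2 sdiff_subset
      · intro A hA
        exact Finset.sdiff_sdiff_eq_self (mem_powerset.1 hA)
      · intro A hA
        exact Finset.sdiff_sdiff_eq_self (mem_powerset.1 hA)
      · intro A hA
        rw [mem_powerset] at hA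
        have h4 : sgn (insert v₀ σ') (sA (insert v₀ σ') (insert v₀ (σ' \ A))) =
            sgn (insert v₀ σ') (sB A) := by
          refine sgn_congr fun u hu => ?_
          unfold sA sB
          rw [decide_eq_decide, mem_insert, mem_sdiff]
          have h5 := @hA u
          have h6 : v₀ ∉ A := fun h => hv' (hA h)
          rw [mem_insert] at hu
          by_cases huv : u = v₀
          · subst huv
            simp [h6]
          · have hu' : u ∈ σ' := by tauto
            simp [huv, hu']
        have h5 : sgn (insert v₀ σ') (sB (insert v₀ (σ' \ A))) =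
            sgn (insert v₀ σ') (sA (insert v₀ σ') A) := by
          refine sgn_congr fun u hu => ?_
          unfold sA sB
          rw [decide_eq_decide, mem_insert, mem_sdiff]
          have h6 : v₀ ∉ A := fun h => hv' (hA h)
          by_cases huv : u = v₀
          · subst huv
            simp [h6]
          · rw [mem_insert] at hu
            have hu' : u ∈ σ' := by tauto
            simp [huv, hu']
        rw [h4, h5]
        unfold d1 d2
        refine sum_congr rfl fun w _ => ?_
        exact gt_symm g _ _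
    rw [h3, ← sum_add_distrib]
    have h4 : ∀ A ∈ σ'.powerset, d2 (gt g)
          (sgn (insert v₀ σ') (sA (insert v₀ σ') (insert v₀ A)))
          (sgn (insert v₀ σ') (sB (insert v₀ A))) + d1 (gt g)
          (sgn (insert v₀ σ') (sA (insert v₀ σ') (insert v₀ A)))
          (sgn (insert v₀ σ') (sB (insert v₀ A))) = iv e
          (sgn (insert v₀ σ') (sA (insert v₀ σ') (insert v₀ A)))
          (sgn (insert v₀ σ') (sB (insert v₀ A))) := by
      intro A _
      rw [add_comm]
      exact gt_dd g hg (clique_sgn _ hσ) (by rw [card_sgn, hσc]) (clique_sgn _ hσ)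
        (by rw [card_sgn, hσc]) (sgn_disjoint (by rw [inter_self]))
    rw [sum_congr rfl h4, sum_eq_single σ']
    · unfold iv
      rw [if_pos (inter_full e _)]
    · intro A hA hne'
      rw [mem_powerset] at hA
      unfold iv
      rw [if_neg]
      intro hI
      have h5 := inter_only he (insert_subset_insert v₀ hA) (mem_insert_self v₀ A) hI
      apply hne'
      have h6 : v₀ ∉ A := fun h => hv' (hA h)
      rw [← erase_insert h6, h5, erase_insert hv']
    · intro h
      exact absurd (mem_powerset_self σ') h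
  rw [h1, h2, mul_one]

/-- a symmetric function has the sum of its diagonal, modulo two -/
theorem sum_sym {α : Type} [DecidableEq α] (s : Finset α) (f : α → α → ZMod 2)
    (hf : ∀ a ∈ s, ∀ b ∈ s, a ≠ b → f a b = f b a) :
    ∑ a ∈ s, ∑ b ∈ s, f a b = ∑ a ∈ s, f a a := by
  induction s using Finset.induction_on with
  | empty => simp
  | insert c s hc ih =>
    rw [sum_insert hc, sum_insert hc, sum_insert hc]
    have h1 : ∀ a ∈ s, ∑ b ∈ insert c s, f a b = f c a + ∑ b ∈ s, f a b := by
      intro a ha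
      rw [sum_insert hc, hf a (mem_insert_of_mem ha) c (mem_insert_self c s)
        (fun h => hc (h ▸ ha))]
    rw [sum_congr rfl h1, sum_add_distrib,
      ih fun a ha b hb => hf a (mem_insert_of_mem ha) b (mem_insert_of_mem hb)]
    have h2 := z2_add_self (∑ b ∈ s, f c b)
    linear_combination h2

/-- **The pairing.** -/
theorem pair_zero [Fintype V] (he : Function.Injective e)
    (hx : ∀ D : Finset V, G.IsClique (D : Set V) → D.card = k + 2 → ∑ v ∈ D, x (D.erase v) = 0)
    (hg : ∀ a b : Finset (V × Bool), (oct G).IsClique (a : Set (V × Bool)) → a.card = k + 1 →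
      (oct G).IsClique (b : Set (V × Bool)) → b.card = k + 1 → Disjoint a b →
      iv e a b = ∑ w ∈ b, g a (b.erase w) + ∑ w ∈ a, g b (a.erase w))
    (z : Finset V → ZMod 2) (hz : ∀ s, z s ≠ 0 → G.IsClique (s : Set V) ∧ s.card = k + 1)
    (hdz : ∀ s, ∑ v ∈ sᶜ, z (insert v s) = 0) : ∑ s, x s * z s = 0 := by
  classical
  -- the sum over the first simplex vanishes
  have h1 : ∀ τ, ∑ σ, z σ * QQ G e x k g σ τ = 0 := by
    intro τ
    have h2 : ∑ σ : Finset V, z σ * QQ G e x k g σ τ =
        ∑ ρ : Finset V, (∑ v ∈ ρᶜ, z (insert v ρ)) * Ps G e x k (gt g) ρ τ := by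
      unfold QQ
      simp only [mul_sum, sum_mul]
      rw [sum_sigma', sum_sigma']
      refine sum_bij' (fun p _ => ⟨p.1.erase p.2, p.2⟩) (fun p _ => ⟨insert p.2 p.1, p.2⟩)
        ?_ ?_ ?_ ?_ ?_
      · rintro ⟨σ, v⟩ _
        simp
      · rintro ⟨ρ, v⟩ _
        simp
      · rintro ⟨σ, v⟩ h
        simp only [mem_sigma, mem_univ, true_and] at h
        simp only [insert_erase h]
      · rintro ⟨ρ, v⟩ h
        simp only [mem_sigma, mem_univ, true_and, mem_compl] at h
        simp only [erase_insert h]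
      · rintro ⟨σ, v⟩ h
        simp only [mem_sigma, mem_univ, true_and] at h
        simp only [insert_erase h]
    rw [h2]
    exact sum_eq_zero fun ρ _ => by rw [hdz, zero_mul]
  have h2 : ∑ σ : Finset V, ∑ τ : Finset V, z σ * z τ * QQ G e x k g σ τ = 0 := by
    rw [sum_comm]
    refine sum_eq_zero fun τ _ => ?_
    have h3 := congrArg (fun a => z τ * a) (h1 τ)
    simp only [mul_zero, mul_sum] at h3
    rw [← h3]
    exact sum_congr rfl fun σ _ => by ring
  rw [sum_sym univ (fun σ τ => z σ * z τ * QQ G e x k g σ τ)] at h2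
  · rw [← h2]
    refine sum_congr rfl fun σ _ => ?_
    by_cases h3 : z σ = 0
    · rw [h3]
      ring
    · obtain ⟨h4, h5⟩ := hz σ h3
      rw [QQ_diag g he hg h4 h5]
      have h6 : ∀ a b : ZMod 2, a * b = b * b * a := by decide
      exact h6 _ _
  · intro σ _ τ _ hne
    by_cases h3 : z σ = 0
    · rw [h3]
      ring
    · by_cases h4 : z τ = 0
      · rw [h4]
        ring
      · obtain ⟨h5, h6⟩ := hz σ h3
        obtain ⟨h7, h8⟩ := hz τ h4
        rw [QQ_off g he hx hg h5 h6 h7 h8 hne]
        ring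

end Pool.Agent.H65.RA
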