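import Pool.Agent.H65.RA.Psi
import Pool.Agent.H85.VK.Defs

/-!
# Project RA: interlacing in the order by blocks
-/

set_option autoImplicit false
set_option linter.unusedSectionVars false

open Finset

namespace Pool.Agent.H65.RA

open Pool.Agent.H85.VK

variable {V : Type} [DecidableEq V]

/-- the numbering of the vertices of the octahedralisation by blocks -/
def nu (e : V → ℕ) (w : V × Bool) : ℕ := 2 * e w.1 + if w.2 then 1 else 0

theorem nu_inj {e : V → ℕ} (he : Function.Injective e) : Function.Injective (nu e) := by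
  rintro ⟨v, b⟩ ⟨u, c⟩ h
  unfold nu at h
  simp only at h
  have h1 : e v = e u := by
    split_ifs at h <;> omega
  have h2 := he h1
  subst h2
  cases b <;> cases c <;> simp_all

/-- interlacing is invariant under maps which preserve the order -/
theorem inter_image {W : Type} [DecidableEq W] {ν : W → ℕ} {φ : W → W}
    (hφ : Function.Injective φ) {σ τ : Finset W}
    (h : ∀ a ∈ σ ∪ τ, ∀ b ∈ σ ∪ τ, ν (φ a) < ν (φ b) ↔ ν a < ν b) :
    Interlace ν (σ.image φ) (τ.image φ) ↔ Interlace ν σ τ := by
  unfold Interlace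
  rw [← image_union]
  constructor
  · intro hI a ha b hb hab hc
    rw [← hφ.mem_finset_image (s := σ), ← hφ.mem_finset_image (s := τ)]
    refine hI (φ a) (mem_image_of_mem φ ha) (φ b) (mem_image_of_mem φ hb) ((h a ha b hb).2 hab)
      fun z hz => ?_
    rw [mem_image] at hz
    obtain ⟨c, hc', rfl⟩ := hz
    rw [h a ha c hc', h c hc' b hb]
    exact hc c hc'
  · intro hI x hx y hy hxy hc
    rw [mem_image] at hx hy
    obtain ⟨a, ha, rfl⟩ := hx
    obtain ⟨b, hb, rfl⟩ := hy
    rw [hφ.mem_finset_image, hφ.mem_finset_image]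
    refine hI a ha b hb ((h a ha b hb).1 hxy) fun c hc' => ?_
    have h1 := hc (φ c) (mem_image_of_mem φ hc')
    rwa [h a ha c hc', h c hc' b hb] at h1

/-- the change of the sign of `v` -/
def flip (v : V) (w : V × Bool) : V × Bool := if w.1 = v then (w.1, !w.2) else w

theorem flip_fst (v : V) (w : V × Bool) : (flip v w).1 = w.1 := by
  unfold flip
  split_ifs <;> rfl

theorem flip_inj (v : V) : Function.Injective (flip v) := by
  intro w w' h
  have h1 : w.1 = w'.1 := by
    rw [← flip_fst v w, h, flip_fst]
  unfold flip at h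
  rw [h1] at h
  by_cases h2 : w'.1 = v
  · rw [if_pos h2, if_pos h2, Prod.mk.injEq] at h
    exact Prod.ext h1 (by simpa using h.2)
  · rwa [if_neg h2, if_neg h2] at h

theorem flip_sgn (v : V) (σ : Finset V) (b : V → Bool) :
    (sgn σ b).image (flip v) = sgn σ (fun u => if u = v then !(b u) else b u) := by
  unfold sgn
  rw [image_image]
  refine image_congr fun u _ => ?_
  simp only [Function.comp, flip]
  split_ifs <;> rfl

/-- The sign of a vertex which is in only one of the two simplices does not matter. -/
theorem inter_flip {e : V → ℕ} (he : Function.Injective e) {σ τ : Finset V} {v : V}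
    (hv : v ∉ σ ∨ v ∉ τ) (b c : V → Bool) :
    Interlace (nu e) (sgn σ fun u => if u = v then !(b u) else b u)
      (sgn τ fun u => if u = v then !(c u) else c u) ↔
      Interlace (nu e) (sgn σ b) (sgn τ c) := by
  rw [← flip_sgn, ← flip_sgn]
  refine inter_image (flip_inj v) fun a ha a' ha' => ?_
  by_cases h1 : a = a'
  · rw [h1]
    constructor <;> intro h <;> exact absurd h (lt_irrefl _)
  · -- the first coordinates differ if one of them is `v`
    have key : a.1 = v → a'.1 = v → False := by
      intro h2 h3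
      apply h1
      rw [mem_union, mem_sgn, mem_sgn] at ha ha'
      refine Prod.ext (h2.trans h3.symm) ?_
      rcases hv with hv | hv
      · rcases ha with ⟨h4, _⟩ | ⟨_, h4⟩
        · exact absurd (h2 ▸ h4) hv
        · rcases ha' with ⟨h5, _⟩ | ⟨_, h5⟩
          · exact absurd (h3 ▸ h5) hv
          · rw [h4, h5, h2, h3]
      · rcases ha with ⟨_, h4⟩ | ⟨h4, _⟩
        · rcases ha' with ⟨_, h5⟩ | ⟨h5, _⟩
          · rw [h4, h5, h2, h3]
          · exact absurd (h3 ▸ h5) hv
        · exact absurd (h2 ▸ h4) hv
    by_cases h2 : a.1 = v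
    · have h3 : a'.1 ≠ v := fun h => key h2 h
      have h4 : e a.1 ≠ e a'.1 := fun h => h3 (by rw [← he h, h2])
      unfold nu flip
      rw [if_pos h2, if_neg h3]
      simp only
      split_ifs <;> omega
    · by_cases h3 : a'.1 = v
      · have h4 : e a.1 ≠ e a'.1 := fun h => h2 (by rw [he h, h3])
        unfold nu flip
        rw [if_neg h2, if_pos h3]
        simp only
        split_ifs <;> omega
      · unfold flip
        rw [if_neg h2, if_neg h3]

open Classical in
/-- the indicator function of interlacing -/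
noncomputable def iv (e : V → ℕ) (a b : Finset (V × Bool)) : ZMod 2 :=
  if Interlace (nu e) a b then 1 else 0

/-- The pull-back of the function `iv` vanishes on the pairs of different simplices. -/
theorem Ps_inter {G : SimpleGraph V} {e : V → ℕ} (he : Function.Injective e)
    (x : Finset V → ZMod 2) (k : ℕ) {σ τ : Finset V} (hσ : σ.card = k + 1)
    (hτ : τ.card = k + 1) (hne : σ ≠ τ) : Ps G e x k (iv e) σ τ = 0 := by
  unfold Ps
  refine sum_eq_zero fun S hS => ?_
  rw [mem_bet] at hS
  by_cases h : S ⊆ σ ∩ τ
  · have h1 : S.card ≤ k := by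
      have h2 : (σ ∩ τ).card < σ.card := by
        refine card_lt_card (_root_.ssubset_iff_subset_ne.2 ⟨inter_subset_left, fun h3 => hne ?_⟩)
        have h4 : σ ⊆ τ := by
          rw [← h3]
          exact inter_subset_right
        exact eq_of_subset_of_card_le h4 (by omega)
      have := card_le_card h
      omega
    refine sum_eq_zero fun A _ => ?_
    rw [FS_small e x k _ h1, zero_mul]
  · rw [not_subset] at h
    obtain ⟨v, hvS, hv⟩ := h
    have hv' : v ∉ σ ∨ v ∉ τ := by
      rw [mem_inter] at hv
      tauto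
    obtain ⟨S', hvS', rfl⟩ : ∃ S', v ∉ S' ∧ S = insert v S' :=
      ⟨S.erase v, notMem_erase v S, (insert_erase hvS).symm⟩
    rw [sum_powerset_insert hvS', ← sum_add_distrib]
    refine sum_eq_zero fun A hA => ?_
    rw [mem_powerset] at hA
    have hvA : v ∉ A := fun h => hvS' (hA h)
    have h1 : FS e x k (insert v S') (ep σ τ (insert v A)) =
        FS e x k (insert v S') (ep σ τ A) := by
      refine FS_congr e x k fun u _ => ?_
      unfold ep
      simp only [mem_union, mem_inter, mem_sdiff, mem_insert]
      by_cases huv : u = v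
      · subst huv
        tauto
      · tauto
    have h2 : sgn σ (sA (insert v S') (insert v A)) =
        sgn σ (fun u => if u = v then !(sA (insert v S') A u) else sA (insert v S') A u) := by
      refine sgn_congr fun u _ => ?_
      by_cases huv : u = v
      · subst huv
        rw [if_pos rfl]
        unfold sA
        simp [hvA]
      · rw [if_neg huv]
        unfold sA
        rw [decide_eq_decide, mem_insert]
        tauto
    have h3 : sgn τ (sB (insert v A)) =
        sgn τ (fun u => if u = v then !(sB A u) else sB A u) := by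
      refine sgn_congr fun u _ => ?_
      by_cases huv : u = v
      · subst huv
        rw [if_pos rfl]
        unfold sB
        simp [hvA]
      · rw [if_neg huv]
        unfold sB
        rw [decide_eq_decide, mem_insert]
        tauto
    have h4 : iv e (sgn σ (sA (insert v S') (insert v A))) (sgn τ (sB (insert v A))) =
        iv e (sgn σ (sA (insert v S') A)) (sgn τ (sB A)) := by
      unfold iv
      rw [h2, h3, inter_flip he hv']
    rw [h1, h4]
    exact z2_add_self _

/-- antipodal signed simplices interlace if all signs are equal -/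
theorem inter_full (e : V → ℕ) (σ : Finset V) :
    Interlace (nu e) (sgn σ (sA σ σ)) (sgn σ (sB σ)) := by
  have h1 : ∀ w : V × Bool, w ∈ sgn σ (sA σ σ) ↔ w.1 ∈ σ ∧ w.2 = true := by
    intro w
    rw [mem_sgn]
    unfold sA
    constructor
    · rintro ⟨h, h'⟩
      exact ⟨h, by rw [h']; simp [h]⟩
    · rintro ⟨h, h'⟩
      exact ⟨h, by rw [h']; simp [h]⟩
  have h2 : ∀ w : V × Bool, w ∈ sgn σ (sB σ) ↔ w.1 ∈ σ ∧ w.2 = false := by
    intro w
    rw [mem_sgn]
    unfold sB
    constructor
    · rintro ⟨h, h'⟩
      exact ⟨h, by rw [h']; simp [h]⟩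
    · rintro ⟨h, h'⟩
      exact ⟨h, by rw [h']; simp [h]⟩
  have h3 : ∀ w : V × Bool, w.1 ∈ σ → w ∈ sgn σ (sA σ σ) ∪ sgn σ (sB σ) := by
    intro w hw
    rw [mem_union, h1, h2]
    cases h : w.2
    · exact Or.inr ⟨hw, rfl⟩
    · exact Or.inl ⟨hw, rfl⟩
  rintro ⟨v, b⟩ hx ⟨u, c⟩ hy hxy hc
  have hv : v ∈ σ := by
    rw [mem_union, h1, h2] at hx
    rcases hx with h | h <;> exact h.1
  have hu : u ∈ σ := by
    rw [mem_union, h1, h2] at hy
    rcases hy with h | h <;> exact h.1
  rw [h1, h2]
  simp only [hv, hu, true_and]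
  cases b
  · -- the next vertex is `(v, true)`
    cases c
    · exfalso
      refine hc (v, true) (h3 _ hv) ?_
      unfold nu at hxy ⊢
      simp only at hxy ⊢
      have : e v < e u := by
        simp at hxy
        omega
      simp
      omega
    · simp
  · cases c
    · simp
    · exfalso
      refine hc (u, false) (h3 _ hu) ?_
      unfold nu at hxy ⊢
      simp only at hxy ⊢
      simp at hxy ⊢
      omega

/-- if antipodal signed simplices interlace and one sign is positive, then all are positive -/
theorem inter_only {e : V → ℕ} (he : Function.Injective e) {σ A : Finset V} (hA : A ⊆ σ) {v₀ : V}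
    (hv₀ : v₀ ∈ A) (hI : Interlace (nu e) (sgn σ (sA σ A)) (sgn σ (sB A))) : A = σ := by
  have h1 : ∀ w : V × Bool, w ∈ sgn σ (sA σ A) ↔ w.1 ∈ σ ∧ (w.2 = true ↔ w.1 ∈ A) := by
    intro w
    rw [mem_sgn]
    refine and_congr_right fun h => ?_
    unfold sA
    by_cases h' : w.1 ∈ A
    · simp [h']
    · simp [h', h]
  have h2 : ∀ w : V × Bool, w ∈ sgn σ (sB A) ↔ w.1 ∈ σ ∧ (w.2 = false ↔ w.1 ∈ A) := by
    intro w
    rw [mem_sgn]
    refine and_congr_right fun h => ?_
    unfold sB
    by_cases h' : w.1 ∈ A
    · simp [h']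
    · simp [h']
  have h3 : ∀ w : V × Bool, w.1 ∈ σ → w ∈ sgn σ (sA σ A) ∪ sgn σ (sB A) := by
    intro w hw
    rw [mem_union, h1, h2]
    by_cases h' : w.1 ∈ A
    · cases h : w.2
      · exact Or.inr ⟨hw, by simp [h']⟩
      · exact Or.inl ⟨hw, by simp [h']⟩
    · cases h : w.2
      · exact Or.inl ⟨hw, by simp [h']⟩
      · exact Or.inr ⟨hw, by simp [h']⟩
  -- consecutive vertices
  have h4 : ∀ v ∈ σ, ∀ u ∈ σ, e v < e u → (∀ w ∈ σ, ¬ (e v < e w ∧ e w < e u)) →
      (v ∈ A ↔ u ∈ A) := by
    intro v hv u hu hvu hc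
    have h5 := hI (v, true) (h3 _ hv) (u, false) (h3 _ hu) (by
      unfold nu
      simp
      omega) (by
      rintro ⟨w, b⟩ hw ⟨h6, h7⟩
      have hwσ : w ∈ σ := by
        rw [mem_union, h1, h2] at hw
        rcases hw with h | h <;> exact h.1
      have h8 := hc w hwσ
      unfold nu at h6 h7
      simp only at h6 h7
      cases b
      · simp at h6 h7
        omega
      · simp at h6 h7
        omega)
    rw [h1, h2] at h5
    simpa [hv, hu] using h5
  -- all vertices
  have hne : σ.Nonempty := ⟨v₀, hA hv₀⟩
  obtain ⟨m, hm, hmin⟩ := exists_min_image σ e hne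
  have h5 : ∀ n : ℕ, ∀ v ∈ σ, e v = n → (m ∈ A ↔ v ∈ A) := by
    intro n
    induction n using Nat.strong_induction_on with
    | _ n ih =>
      intro v hv hn
      by_cases hvm : v = m
      · rw [hvm]
      · have h6 : (σ.filter fun u => e u < e v).Nonempty := by
          refine ⟨m, mem_filter.2 ⟨hm, lt_of_le_of_ne (hmin v hv) fun h => hvm (he h).symm⟩⟩
        obtain ⟨u, hu, hmax⟩ := exists_max_image _ e h6
        rw [mem_filter] at hu
        rw [ih (e u) (by omega) u hu.1 rfl]
        refine h4 u hu.1 v hv hu.2 fun w hw hc => ?_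
        have := hmax w (mem_filter.2 ⟨hw, hc.2⟩)
        omega
  refine Subset.antisymm hA fun v hv => ?_
  exact (h5 _ v hv rfl).1 ((h5 _ v₀ (hA hv₀) rfl).2 hv₀)

end Pool.Agent.H65.RA
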