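import Pool.Agent.H65.RA.End
import Pool.Agent.H85.VK.Final

/-!
# Project RA: the van Kampen obstruction of the octahedralisation of a flag complex

If the van Kampen obstruction of the `k`-skeleton of the octahedralisation vanishes, then every
cocycle of degree `k` of the flag complex is zero on every cycle.
-/

set_option autoImplicit false

open Finset

namespace Pool.Agent.H65.RA

open Pool.Agent.H85.VK

variable {V : Type} [DecidableEq V] [Fintype V]

/-- **The van Kampen obstruction of the octahedralisation.** If it vanishes, then every cocycle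
`x` of degree `k` of the flag complex of `G` vanishes on every cycle `z`. -/
theorem van_pair {G : SimpleGraph V} {k : ℕ} (h : VanKampenZero (oct G) k)
    (x z : Finset V → ZMod 2)
    (hx : ∀ s : Finset V, G.IsClique (s : Set V) → s.card = k + 2 → ∑ v ∈ s, x (s.erase v) = 0)
    (hz : ∀ s, z s ≠ 0 → G.IsClique (s : Set V) ∧ s.card = k + 1)
    (hdz : ∀ s, ∑ v ∈ sᶜ, z (insert v s) = 0) : ∑ s, x s * z s = 0 := by
  classical
  let e : V → ℕ := fun v => (Fintype.equivFin V v : ℕ)
  have he : Function.Injective e := fun a b hab =>
    (Fintype.equivFin V).injective (Fin.ext hab)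
  obtain ⟨g, hg⟩ := vanKampen_all h (nu_inj he)
  refine pair_zero (e := e) g he hx (fun a b h1 h2 h3 h4 h5 => ?_) z hz hdz
  have h6 := hg a b h1 h2 h3 h4 h5
  rw [← h6]
  unfold iv
  rfl

end Pool.Agent.H65.RA
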