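import Pool.Agent.H65.RA.Poly
import Pool.Agent.H65.RA.Defs

/-!
# Project RA: the equivariant chain map

For a function `g` on pairs of simplices of the octahedralisation, `Ps g` is a function on the pairs
of simplices of the flag complex. It commutes with the coboundary operators and with the exchange of
the two simplices.
-/

set_option autoImplicit false
set_option linter.unusedSectionVars false

open Finset

namespace Pool.Agent.H65.RA

variable {V : Type} [DecidableEq V]

/-- the simplex `σ` with the signs `b` -/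
def sgn (σ : Finset V) (b : V → Bool) : Finset (V × Bool) := σ.image fun v => (v, b v)

theorem mem_sgn {σ : Finset V} {b : V → Bool} {w : V × Bool} :
    w ∈ sgn σ b ↔ w.1 ∈ σ ∧ w.2 = b w.1 := by
  unfold sgn
  rw [mem_image]
  constructor
  · rintro ⟨v, hv, rfl⟩
    exact ⟨hv, rfl⟩
  · rintro ⟨h1, h2⟩
    exact ⟨w.1, h1, Prod.ext rfl h2.symm⟩

theorem sgn_congr {σ : Finset V} {b b' : V → Bool} (h : ∀ v ∈ σ, b v = b' v) :
    sgn σ b = sgn σ b' := by
  unfold sgn
  exact image_congr fun v hv => by rw [h v hv]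

theorem sgn_inj (b : V → Bool) : Function.Injective fun v : V => (v, b v) :=
  fun _ _ h => congrArg Prod.fst h

theorem card_sgn (σ : Finset V) (b : V → Bool) : (sgn σ b).card = σ.card :=
  card_image_of_injective σ (sgn_inj b)

theorem sum_sgn (σ : Finset V) (b : V → Bool) (f : V × Bool → ZMod 2) :
    ∑ w ∈ sgn σ b, f w = ∑ v ∈ σ, f (v, b v) :=
  sum_image fun _ _ _ _ h => sgn_inj b h

theorem erase_sgn (σ : Finset V) (b : V → Bool) (v : V) :
    (sgn σ b).erase (v, b v) = sgn (σ.erase v) b := by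
  unfold sgn
  rw [image_erase (sgn_inj b)]

theorem clique_sgn {G : SimpleGraph V} {σ : Finset V} (b : V → Bool)
    (h : G.IsClique (σ : Set V)) : (oct G).IsClique (sgn σ b : Set (V × Bool)) := by
  intro w hw w' hw' hne
  rw [mem_coe, mem_sgn] at hw hw'
  refine h hw.1 hw'.1 fun h1 => hne (Prod.ext h1 ?_)
  rw [hw.2, hw'.2, h1]

/-- the signs of the first simplex -/
def sA (S A : Finset V) (v : V) : Bool := decide (v ∈ A ∨ v ∉ S)

/-- the signs of the second simplex -/
def sB (A : Finset V) (v : V) : Bool := decide (v ∉ A)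

/-- the point at which the polynomial is evaluated -/
def ep (σ τ A : Finset V) : Finset V := (A ∩ (σ ∩ τ)) ∪ (τ \ σ)

open Classical in
/-- the cliques between `σ ∩ τ` and `σ ∪ τ` -/
noncomputable def bet (G : SimpleGraph V) (σ τ : Finset V) : Finset (Finset V) :=
  (σ ∪ τ).powerset.filter fun S => σ ∩ τ ⊆ S ∧ G.IsClique (S : Set V)

theorem mem_bet {G : SimpleGraph V} {σ τ S : Finset V} :
    S ∈ bet G σ τ ↔ S ⊆ σ ∪ τ ∧ σ ∩ τ ⊆ S ∧ G.IsClique (S : Set V) := by
  classical
  unfold bet
  rw [mem_filter, mem_powerset]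

theorem bet_comm (G : SimpleGraph V) (σ τ : Finset V) : bet G σ τ = bet G τ σ := by
  ext S
  rw [mem_bet, mem_bet, union_comm, inter_comm]

/-- the pull-back of a function on the pairs of simplices of the octahedralisation -/
noncomputable def Ps (G : SimpleGraph V) (e : V → ℕ) (x : Finset V → ZMod 2) (k : ℕ)
    (g : Finset (V × Bool) → Finset (V × Bool) → ZMod 2) (σ τ : Finset V) : ZMod 2 :=
  ∑ S ∈ bet G σ τ, ∑ A ∈ S.powerset,
    FS e x k S (ep σ τ A) * g (sgn σ (sA S A)) (sgn τ (sB A))

/-- the coboundary in the first variable -/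
def d1 {W : Type} [DecidableEq W] (g : Finset W → Finset W → ZMod 2) (a b : Finset W) : ZMod 2 :=
  ∑ w ∈ a, g (a.erase w) b

/-- the coboundary in the second variable -/
def d2 {W : Type} [DecidableEq W] (g : Finset W → Finset W → ZMod 2) (a b : Finset W) : ZMod 2 :=
  ∑ w ∈ b, g a (b.erase w)

variable {G : SimpleGraph V} (e : V → ℕ) (x : Finset V → ZMod 2) (k : ℕ)

/-- the exchange of the two simplices -/
theorem Ps_swap (he : Function.Injective e)
    (hx : ∀ D : Finset V, G.IsClique (D : Set V) → D.card = k + 2 → ∑ v ∈ D, x (D.erase v) = 0)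
    (g : Finset (V × Bool) → Finset (V × Bool) → ZMod 2) (σ τ : Finset V) :
    Ps G e x k g σ τ = Ps G e x k (fun a b => g b a) τ σ := by
  unfold Ps
  rw [bet_comm G τ σ]
  refine sum_congr rfl fun S hS => ?_
  rw [mem_bet] at hS
  obtain ⟨hS1, hS2, hS3⟩ := hS
  refine sum_nbij' (fun A => S \ A) (fun A => S \ A) ?_ ?_ ?_ ?_ ?_
  · intro A _
    exact mem_powerset.2 sdiff_subset
  · intro A _
    exact mem_powerset.2 sdiff_subset
  · intro A hA
    exact Finset.sdiff_sdiff_eq_self (mem_powerset.1 hA)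
  · intro A hA
    exact Finset.sdiff_sdiff_eq_self (mem_powerset.1 hA)
  · intro A hA
    rw [mem_powerset] at hA
    beta_reduce
    congr 1
    · rw [← FS_compl e he x k S (ep σ τ A)
        fun D hD hc => hx D (fun a ha b hb hab => hS3 (hD ha) (hD hb) hab) hc]
      refine FS_congr e x k fun u hu => ?_
      have h1 := hS1 hu
      unfold ep
      simp only [mem_sdiff, mem_union, mem_inter] at h1 ⊢
      tauto
    · congr 1
      · refine sgn_congr fun v _ => ?_
        unfold sA sB
        rw [decide_eq_decide, mem_sdiff]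
        tauto
      · refine sgn_congr fun v _ => ?_
        unfold sA sB
        rw [decide_eq_decide, mem_sdiff]
        have := @hA v
        tauto

/-- a clique of `σ ∪ τ` together with an element of `σ ∩ τ` is a clique -/
theorem clique_insert {σ τ S : Finset V} (hσ : G.IsClique (σ : Set V))
    (hτ : G.IsClique (τ : Set V)) {v : V} (hvσ : v ∈ σ) (hvτ : v ∈ τ) (hS : S ⊆ σ ∪ τ)
    (hc : G.IsClique (S : Set V)) : G.IsClique ((insert v S : Finset V) : Set V) := by
  intro a ha b hb hab
  rw [mem_coe, mem_insert] at ha hb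
  have key : ∀ u ∈ S, u ≠ v → G.Adj v u := by
    intro u hu huv
    rcases mem_union.1 (hS hu) with h | h
    · exact hσ hvσ h huv.symm
    · exact hτ hvτ h huv.symm
  rcases ha with rfl | ha
  · rcases hb with rfl | hb
    · exact absurd rfl hab
    · exact key b hb hab.symm
  · rcases hb with rfl | hb
    · exact (key a ha hab).symm
    · exact hc ha hb hab

private theorem step_out {σ τ : Finset V} {v : V} (hvτ : v ∉ τ)
    (g : Finset (V × Bool) → Finset (V × Bool) → ZMod 2) :
    ∑ S ∈ bet G σ τ, ∑ A ∈ S.powerset,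
      FS e x k S (ep σ τ A) * g (sgn (σ.erase v) (sA S A)) (sgn τ (sB A)) =
    Ps G e x k g (σ.erase v) τ := by
  unfold Ps
  have hsub : bet G (σ.erase v) τ ⊆ bet G σ τ := by
    intro S hS
    rw [mem_bet] at hS ⊢
    refine ⟨hS.1.trans (union_subset_union (erase_subset v σ) (Subset.refl τ)), ?_, hS.2.2⟩
    intro u hu
    rw [mem_inter] at hu
    refine hS.2.1 (mem_inter.2 ⟨mem_erase.2 ⟨fun h => hvτ (h ▸ hu.2), hu.1⟩, hu.2⟩)
  rw [← sum_subset hsub]
  · refine sum_congr rfl fun S hS => sum_congr rfl fun A _ => ?_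
    congr 1
    refine FS_congr e x k fun u hu => ?_
    have huv : u ≠ v := by
      intro h
      rw [mem_bet] at hS
      have h1 := hS.1 hu
      rw [mem_union, mem_erase] at h1
      rcases h1 with h1 | h1
      · exact h1.1 h
      · exact hvτ (h ▸ h1)
    unfold ep
    simp only [mem_union, mem_inter, mem_sdiff, mem_erase]
    tauto
  · intro S hS hS'
    have hvS : v ∈ S := by
      by_contra h
      apply hS'
      rw [mem_bet] at hS ⊢
      refine ⟨fun u hu => ?_, fun u hu => ?_, hS.2.2⟩
      · have huv : u ≠ v := fun h' => h (h' ▸ hu)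
        have h1 := hS.1 hu
        rw [mem_union] at h1 ⊢
        rw [mem_erase]
        tauto
      · rw [mem_inter] at hu
        exact hS.2.1 (mem_inter.2 ⟨mem_of_mem_erase hu.1, hu.2⟩)
    obtain ⟨S', hvS', rfl⟩ : ∃ S', v ∉ S' ∧ S = insert v S' :=
      ⟨S.erase v, notMem_erase v S, (insert_erase hvS).symm⟩
    rw [sum_powerset_insert hvS', ← sum_add_distrib]
    refine sum_eq_zero fun A hA => ?_
    rw [mem_powerset] at hA
    have hvA : v ∉ A := fun h => hvS' (hA h)
    have h1 : FS e x k (insert v S') (ep σ τ (insert v A)) =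
        FS e x k (insert v S') (ep σ τ A) := by
      refine FS_congr e x k fun u _ => ?_
      unfold ep
      simp only [mem_union, mem_inter, mem_sdiff, mem_insert]
      constructor
      · rintro (⟨h2 | h2, h3, h4⟩ | h2)
        · exact absurd (h2 ▸ h4) hvτ
        · exact Or.inl ⟨h2, h3, h4⟩
        · exact Or.inr h2
      · rintro (⟨h2, h3, h4⟩ | h2)
        · exact Or.inl ⟨Or.inr h2, h3, h4⟩
        · exact Or.inr h2
    have h2 : sgn (σ.erase v) (sA (insert v S') (insert v A)) =
        sgn (σ.erase v) (sA (insert v S') A) := by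
      refine sgn_congr fun u hu => ?_
      unfold sA
      rw [decide_eq_decide, mem_insert]
      have := ne_of_mem_erase hu
      tauto
    have h3 : sgn τ (sB (insert v A)) = sgn τ (sB A) := by
      refine sgn_congr fun u hu => ?_
      unfold sB
      rw [decide_eq_decide, mem_insert]
      have : u ≠ v := fun h => hvτ (h ▸ hu)
      tauto
    rw [h1, h2, h3]
    exact z2_add_self _

private theorem step_in {σ τ : Finset V} (hσ : G.IsClique (σ : Set V))
    (hτ : G.IsClique (τ : Set V)) {v : V} (hvσ : v ∈ σ) (hvτ : v ∈ τ)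
    (g : Finset (V × Bool) → Finset (V × Bool) → ZMod 2) :
    ∑ S ∈ bet G σ τ, ∑ A ∈ S.powerset,
      FS e x k S (ep σ τ A) * g (sgn (σ.erase v) (sA S A)) (sgn τ (sB A)) =
    Ps G e x k g (σ.erase v) τ := by
  classical
  have hU : σ.erase v ∪ τ = σ ∪ τ := by
    ext u
    simp only [mem_union, mem_erase]
    constructor
    · rintro (⟨_, h⟩ | h)
      · exact Or.inl h
      · exact Or.inr h
    · rintro (h | h)
      · by_cases huv : u = v
        · exact Or.inr (huv ▸ hvτ)
        · exact Or.inl ⟨huv, h⟩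
      · exact Or.inr h
  have hmem1 : ∀ S, S ∈ bet G σ τ ↔ S ∈ (bet G (σ.erase v) τ).filter (v ∈ ·) := by
    intro S
    rw [mem_filter, mem_bet, mem_bet, hU]
    constructor
    · rintro ⟨h1, h2, h3⟩
      refine ⟨⟨h1, fun u hu => h2 ?_, h3⟩, h2 (mem_inter.2 ⟨hvσ, hvτ⟩)⟩
      rw [mem_inter] at hu ⊢
      exact ⟨mem_of_mem_erase hu.1, hu.2⟩
    · rintro ⟨⟨h1, h2, h3⟩, h4⟩
      refine ⟨h1, fun u hu => ?_, h3⟩
      by_cases huv : u = v
      · rwa [huv]
      · rw [mem_inter] at hu
        exact h2 (mem_inter.2 ⟨mem_erase.2 ⟨huv, hu.1⟩, hu.2⟩)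
  have hmem : bet G σ τ = (bet G (σ.erase v) τ).filter (v ∈ ·) := by
    ext S
    exact hmem1 S
  unfold Ps
  rw [← sum_filter_add_sum_filter_not (bet G (σ.erase v) τ) (v ∈ ·), ← hmem]
  have h2 : ∑ S ∈ (bet G (σ.erase v) τ).filter (fun S => ¬ v ∈ S), ∑ A ∈ S.powerset,
      FS e x k S (ep (σ.erase v) τ A) * g (sgn (σ.erase v) (sA S A)) (sgn τ (sB A)) =
      ∑ S ∈ bet G σ τ, ∑ A ∈ (S.erase v).powerset,
      FS e x k (S.erase v) (ep (σ.erase v) τ A) *
        g (sgn (σ.erase v) (sA (S.erase v) A)) (sgn τ (sB A)) := by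
    refine sum_nbij' (fun S => insert v S) (fun S => S.erase v) ?_ ?_ ?_ ?_ ?_
    · intro S hS
      rw [mem_filter, mem_bet, hU] at hS
      obtain ⟨⟨h1, h2, h3⟩, h4⟩ := hS
      rw [mem_bet]
      refine ⟨insert_subset (mem_union_left _ hvσ) h1, fun u hu => ?_,
        clique_insert hσ hτ hvσ hvτ h1 h3⟩
      by_cases huv : u = v
      · rw [huv]
        exact mem_insert_self v S
      · rw [mem_inter] at hu
        exact mem_insert_of_mem (h2 (mem_inter.2 ⟨mem_erase.2 ⟨huv, hu.1⟩, hu.2⟩))
    · intro S hS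
      rw [mem_bet] at hS
      obtain ⟨h1, h2, h3⟩ := hS
      rw [mem_filter, mem_bet, hU]
      refine ⟨⟨(erase_subset v S).trans h1, fun u hu => ?_, fun a ha b hb hab =>
        h3 (mem_of_mem_erase ha) (mem_of_mem_erase hb) hab⟩, notMem_erase v S⟩
      rw [mem_inter, mem_erase] at hu
      exact mem_erase.2 ⟨hu.1.1, h2 (mem_inter.2 ⟨hu.1.2, hu.2⟩)⟩
    · intro S hS
      rw [mem_filter] at hS
      exact erase_insert hS.2
    · intro S hS
      rw [hmem, mem_filter] at hS
      exact insert_erase hS.2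
    · intro S hS
      rw [mem_filter] at hS
      rw [erase_insert hS.2]
  rw [h2, ← sum_add_distrib]
  refine sum_congr rfl fun S hS => ?_
  have hvS : v ∈ S := by
    rw [hmem, mem_filter] at hS
    exact hS.2
  obtain ⟨S', hvS', rfl⟩ : ∃ S', v ∉ S' ∧ S = insert v S' :=
    ⟨S.erase v, notMem_erase v S, (insert_erase hvS).symm⟩
  rw [erase_insert hvS', sum_powerset_insert hvS', sum_powerset_insert hvS',
    ← sum_add_distrib, ← sum_add_distrib, ← sum_add_distrib]
  refine sum_congr rfl fun A hA => ?_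
  rw [mem_powerset] at hA
  have hvA : v ∉ A := fun h => hvS' (hA h)
  have h3 : FS e x k (insert v S') (ep σ τ (insert v A)) =
      FS e x k (insert v S') (ep (σ.erase v) τ (insert v A)) := by
    refine FS_congr e x k fun u _ => ?_
    unfold ep
    simp only [mem_union, mem_inter, mem_sdiff, mem_insert, mem_erase]
    by_cases huv : u = v
    · subst huv
      tauto
    · tauto
  have h4 : FS e x k (insert v S') (ep (σ.erase v) τ A) =
      FS e x k (insert v S') (insert v (ep σ τ A)) := by
    refine FS_congr e x k fun u _ => ?_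
    unfold ep
    simp only [mem_union, mem_inter, mem_sdiff, mem_insert, mem_erase]
    by_cases huv : u = v
    · subst huv
      tauto
    · tauto
  have hvep : v ∉ ep σ τ A := by
    unfold ep
    simp only [mem_union, mem_inter, mem_sdiff]
    tauto
  have h5 : FS e x k S' (ep (σ.erase v) τ A) = FS e x k S' (ep σ τ A) := by
    refine FS_congr e x k fun u hu => ?_
    have huv : u ≠ v := fun h => hvS' (h ▸ hu)
    unfold ep
    simp only [mem_union, mem_inter, mem_sdiff, mem_erase]
    tauto
  have h6 := FS_toggle e x k (S := insert v S') (mem_insert_self v S') hvep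
  rw [erase_insert hvS'] at h6
  have h7 : sgn (σ.erase v) (sA S' A) = sgn (σ.erase v) (sA (insert v S') A) := by
    refine sgn_congr fun u hu => ?_
    unfold sA
    rw [decide_eq_decide, mem_insert]
    have := ne_of_mem_erase hu
    tauto
  rw [h3, h4, h5, h7, ← h6]
  have h8 := z2_add_self (FS e x k (insert v S') (insert v (ep σ τ A)) *
    g (sgn (σ.erase v) (sA (insert v S') A)) (sgn τ (sB A)))
  linear_combination -h8

/-- **The chain map, first variable.** -/
theorem Ps_d1 {σ τ : Finset V} (hσ : G.IsClique (σ : Set V)) (hτ : G.IsClique (τ : Set V))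
    (g : Finset (V × Bool) → Finset (V × Bool) → ZMod 2) :
    Ps G e x k (d1 g) σ τ = ∑ v ∈ σ, Ps G e x k g (σ.erase v) τ := by
  have h1 : Ps G e x k (d1 g) σ τ = ∑ v ∈ σ, ∑ S ∈ bet G σ τ, ∑ A ∈ S.powerset,
      FS e x k S (ep σ τ A) * g (sgn (σ.erase v) (sA S A)) (sgn τ (sB A)) := by
    unfold Ps
    rw [sum_comm]
    refine sum_congr rfl fun S _ => ?_
    rw [sum_comm]
    refine sum_congr rfl fun A _ => ?_
    unfold d1
    rw [sum_sgn, mul_sum]
    refine sum_congr rfl fun v _ => ?_
    rw [erase_sgn]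
  rw [h1]
  refine sum_congr rfl fun v hv => ?_
  by_cases hvτ : v ∈ τ
  · exact step_in e x k hσ hτ hv hvτ g
  · exact step_out e x k hvτ g

/-- **The chain map.** -/
theorem Ps_dd (he : Function.Injective e)
    (hx : ∀ D : Finset V, G.IsClique (D : Set V) → D.card = k + 2 → ∑ v ∈ D, x (D.erase v) = 0)
    {σ τ : Finset V} (hσ : G.IsClique (σ : Set V)) (hτ : G.IsClique (τ : Set V))
    (g : Finset (V × Bool) → Finset (V × Bool) → ZMod 2) :
    Ps G e x k (fun a b => d1 g a b + d2 g a b) σ τ =
      ∑ v ∈ σ, Ps G e x k g (σ.erase v) τ + ∑ v ∈ τ, Ps G e x k g σ (τ.erase v) := by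
  have h1 : Ps G e x k (fun a b => d1 g a b + d2 g a b) σ τ =
      Ps G e x k (d1 g) σ τ + Ps G e x k (d2 g) σ τ := by
    unfold Ps
    rw [← sum_add_distrib]
    refine sum_congr rfl fun S _ => ?_
    rw [← sum_add_distrib]
    refine sum_congr rfl fun A _ => ?_
    rw [mul_add]
  rw [h1, Ps_d1 e x k hσ hτ]
  congr 1
  have h2 : Ps G e x k (d2 g) σ τ = Ps G e x k (d1 fun a b => g b a) τ σ := by
    rw [Ps_swap e x k he hx]
    rfl
  rw [h2, Ps_d1 e x k hτ hσ]
  refine sum_congr rfl fun v _ => ?_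
  rw [Ps_swap e x k he hx g σ (τ.erase v)]

end Pool.Agent.H65.RA
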